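import Pool.Agent.J6H54.CH.Stm

/-!
# CH-19: the lower bound (written by helper86)
-/

set_option autoImplicit false

namespace Pool.Agent.J6H86.CH19

open Pool.Agent.J6H54.CH Finset

variable {Λ : Type} [AddCommGroup Λ]

lemma coset (σ : Λ ≃ₗ[ℤ] Λ) (m k : ℤ) (w : Λ) : ∃ y, (σ ^ (m * k)) w = w + (σ ^ m) y - y := by
  induction k using Int.induction_on with
  | zero => exact ⟨0, by simp⟩
  | succ k ih =>
    obtain ⟨y, hy⟩ := ih
    refine ⟨y + (σ ^ (m * (k : ℤ))) w, ?_⟩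
    have h1 : m * ((k : ℤ) + 1) = m + m * k := by ring
    rw [h1, pow_add_apply, map_add]
    nth_rewrite 3 [hy]
    abel
  | pred k ih =>
    obtain ⟨y, hy⟩ := ih
    have h1 : m * (-(k : ℤ)) = m + m * (-(k : ℤ) - 1) := by ring
    rw [h1, pow_add_apply] at hy
    set u : Λ := (σ ^ (m * (-(k : ℤ) - 1))) w with hu
    refine ⟨y - u, ?_⟩
    rw [map_sub, hy]
    abel

/-- each conjugate is in one of `m` cosets -/
lemma coset' (σ : Λ ≃ₗ[ℤ] Λ) (m : ℕ) (hm : 1 ≤ m) (j : ℤ) (x y : Λ) :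
    ∃ r ∈ range m, ∃ y', (σ ^ j) x + y - (σ ^ (m : ℤ)) y =
      (σ ^ (r : ℤ)) x + (σ ^ (m : ℤ)) y' - y' := by
  have hm0 : (m : ℤ) ≠ 0 := by exact_mod_cast (by omega : m ≠ 0)
  have hmp : (0 : ℤ) < m := by exact_mod_cast hm
  have hr0 : 0 ≤ j % m := Int.emod_nonneg _ hm0
  have hr1 : j % m < m := Int.emod_lt_of_pos _ hmp
  refine ⟨(j % m).toNat, ?_, ?_⟩
  · rw [mem_range]
    omega
  · have hr : (((j % m).toNat : ℕ) : ℤ) = j % m := Int.toNat_of_nonneg hr0
    rw [hr]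
    obtain ⟨y1, hy1⟩ := coset σ m (j / m) ((σ ^ (j % (m : ℤ))) x)
    have h2 : (σ ^ j) x = (σ ^ ((m : ℤ) * (j / m))) ((σ ^ (j % (m : ℤ))) x) := by
      rw [← pow_add_apply, Int.mul_ediv_add_emod]
    refine ⟨y1 - y, ?_⟩
    rw [h2, hy1, map_sub]
    abel

theorem m19 (h16 : S_cj) (h18 : S_rep) : S_Flow := by
  intro Λ _ σ T p q κ M C0 C H hT hC
  classical
  obtain ⟨hrefl, hsymm, htrans, _, _, hclen, hcle, _, _, hiff, _⟩ := h16 Λ σ T hT
  obtain ⟨_, ⟨N, hN⟩, _⟩ := h18 Λ σ p q κ M C0 C H hC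
  refine ⟨N + 1, by omega, ?_⟩
  intro m hm
  let st : Setoid Λ :=
    { r := fun x y => Cj σ (x, (m : ℤ)) (y, (m : ℤ))
      iseqv := ⟨fun x => hrefl _, fun h => hsymm _ _ h, fun h h' => htrans _ _ _ h h'⟩ }
  let rep : Λ → Λ := fun v => Quotient.out (Quotient.mk st v)
  have hrep : ∀ v, Cj σ (rep v, (m : ℤ)) (v, (m : ℤ)) := by
    intro v
    exact Quotient.exact (Quotient.out_eq (Quotient.mk st v))
  have hrep2 : ∀ v w, Cj σ (v, (m : ℤ)) (w, (m : ℤ)) → rep v = rep w := by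
    intro v w h
    have : Quotient.mk st v = Quotient.mk st w := Quotient.sound h
    change Quotient.out (Quotient.mk st v) = Quotient.out (Quotient.mk st w)
    rw [this]
  set B : Finset Λ := bx σ p q C m with hB
  refine ⟨B.image rep, ?_, ?_⟩
  · intro x hx y hy hxy
    rw [mem_image] at hx hy
    obtain ⟨v, _, rfl⟩ := hx
    obtain ⟨w, _, rfl⟩ := hy
    apply hrep2
    exact htrans _ _ _ (hsymm _ _ (hrep v)) (htrans _ _ _ hxy (hrep w))
  · intro z hz hz1
    have hfib : ∀ x : Λ, (B.filter (fun v => rep v = x)).card ≤ m * N := by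
      intro x
      have hsub : B.filter (fun v => rep v = x) ⊆ (range m).biUnion (fun r =>
          B.filter (fun v => ∃ y, v = (σ ^ (r : ℤ)) x + (σ ^ (m : ℤ)) y - y)) := by
        intro v hv
        rw [mem_filter] at hv
        obtain ⟨hvB, hvx⟩ := hv
        have hc : Cj σ (x, (m : ℤ)) (v, (m : ℤ)) := by
          rw [← hvx]
          exact hrep v
        obtain ⟨j, y, hy⟩ := (hiff x v m).mp hc
        obtain ⟨r, hr, y', hy'⟩ := coset' σ m hm j x y
        rw [mem_biUnion]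
        exact ⟨r, hr, mem_filter.mpr ⟨hvB, y', by rw [hy, hy']⟩⟩
      refine (card_le_card hsub).trans ?_
      refine (card_biUnion_le_card_mul (range m) _ N (fun r _ => ?_)).trans (by rw [card_range])
      apply hN m hm ((σ ^ (r : ℤ)) x) _ (filter_subset _ _)
      intro v hv
      exact (mem_filter.mp hv).2
    have h1 : A σ T p q C m z ≤ ∑ v ∈ B, z ^ clen σ T (rep v, (m : ℤ)) := by
      unfold A
      apply sum_le_sum
      intro v _
      apply pow_le_pow_of_le_one hz.le hz1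
      rw [hclen _ _ (hrep v)]
      exact hcle _
    refine h1.trans ?_
    have h2 : ∑ v ∈ B, z ^ clen σ T (rep v, (m : ℤ)) =
        ∑ x ∈ B.image rep, ∑ v ∈ B.filter (fun v => rep v = x), z ^ clen σ T (rep v, (m : ℤ)) := by
      symm
      exact sum_fiberwise_of_maps_to (fun v hv => mem_image_of_mem rep hv) _
    rw [h2, mul_sum, mul_sum]
    apply sum_le_sum
    intro x _
    have h3 : ∑ v ∈ B.filter (fun v => rep v = x), z ^ clen σ T (rep v, (m : ℤ)) =
        ((B.filter (fun v => rep v = x)).card : ℝ) * z ^ clen σ T (x, (m : ℤ)) := by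
      rw [← nsmul_eq_mul, ← sum_const]
      apply sum_congr rfl
      intro v hv
      rw [(mem_filter.mp hv).2]
    rw [h3]
    have h4 : ((B.filter (fun v => rep v = x)).card : ℝ) ≤ m * N := by exact_mod_cast hfib x
    have h5 : 0 ≤ z ^ clen σ T (x, (m : ℤ)) := by positivity
    have h6 : (0 : ℝ) ≤ m := Nat.cast_nonneg m
    calc ((B.filter (fun v => rep v = x)).card : ℝ) * z ^ clen σ T (x, (m : ℤ))
        ≤ (m * N) * z ^ clen σ T (x, (m : ℤ)) := mul_le_mul_of_nonneg_right h4 h5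
      _ ≤ ((N + 1 : ℕ) : ℝ) * (m * z ^ clen σ T (x, (m : ℤ))) := by
          push_cast
          nlinarith [mul_nonneg h6 h5]

end Pool.Agent.J6H86.CH19
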