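import Pool.Agent.J6H54.CH.Stm

/-!
# CH-27: words in a generating set and their images (helper86, after the module CG-26 of helper78)
-/

set_option autoImplicit false

namespace Pool.Agent.J6H86.CH27

open Pool.Agent.J6H54.CH

section
variable {Λ : Type} [AddCommGroup Λ] {σ : Λ ≃ₗ[ℤ] Λ} {G : Type} [Group G] {f : G → Λ × ℤ}

theorem f_one (hf : Mdl σ G f) : f 1 = (0, 0) := by
  have h : mul σ (f 1) (f 1) = f 1 := by rw [← hf.map_mul, one_mul]
  calc f 1 = mul σ (0, 0) (f 1) := (one_mul' _).symm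
    _ = mul σ (mul σ (inv σ (f 1)) (f 1)) (f 1) := by rw [J6H54.CH.inv_mul']
    _ = mul σ (inv σ (f 1)) (mul σ (f 1) (f 1)) := mul_assoc' _ _ _
    _ = mul σ (inv σ (f 1)) (f 1) := by rw [h]
    _ = (0, 0) := J6H54.CH.inv_mul' _

theorem f_inv (hf : Mdl σ G f) (g : G) : f g⁻¹ = inv σ (f g) := by
  have h : mul σ (f g⁻¹) (f g) = (0, 0) := by
    rw [← hf.map_mul, inv_mul_cancel, f_one hf]
  calc f g⁻¹ = mul σ (f g⁻¹) (0, 0) := (mul_one' _).symm
    _ = mul σ (f g⁻¹) (mul σ (f g) (inv σ (f g))) := by rw [mul_inv']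
    _ = mul σ (mul σ (f g⁻¹) (f g)) (inv σ (f g)) := (mul_assoc' _ _ _).symm
    _ = mul σ (0, 0) (inv σ (f g)) := by rw [h]
    _ = inv σ (f g) := one_mul' _

theorem val_map (hf : Mdl σ G f) (l : List G) : val σ (l.map f) = f l.prod := by
  induction l with
  | nil => rw [List.map_nil, val_nil, List.prod_nil, f_one hf]
  | cons a l ih => rw [List.map_cons, val_cons, ih, List.prod_cons, hf.map_mul]

omit [AddCommGroup Λ] [Group G] in
theorem exists_lift {P : G → Prop} {w : List (Λ × ℤ)} (h : ∀ s ∈ w, ∃ g, P g ∧ f g = s) :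
    ∃ l : List G, (∀ x ∈ l, P x) ∧ l.map f = w := by
  induction w with
  | nil => exact ⟨[], by simp, rfl⟩
  | cons s w ih =>
    obtain ⟨l, hl, hw⟩ := ih (fun t ht => h t (List.mem_cons_of_mem _ ht))
    obtain ⟨g, hg, hs⟩ := h s List.mem_cons_self
    refine ⟨g :: l, ?_, by rw [List.map_cons, hw, hs]⟩
    intro x hx
    rcases List.mem_cons.1 hx with rfl | hx
    · exact hg
    · exact hl x hx

end

theorem m27 : S_words := by
  classical
  intro Λ _ σ G _ f S hf hS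
  have hmem : ∀ s : Λ × ℤ, s ∈ (S ∪ S.image (fun x => x⁻¹)).image f ↔
      ∃ g : G, (g ∈ S ∨ g⁻¹ ∈ S) ∧ f g = s := by
    intro s
    simp only [Finset.mem_image, Finset.mem_union]
    constructor
    · rintro ⟨g, hg | ⟨x, hx, rfl⟩, rfl⟩
      · exact ⟨g, Or.inl hg, rfl⟩
      · exact ⟨x⁻¹, Or.inr (by rwa [inv_inv]), rfl⟩
    · rintro ⟨g, hg | hg, rfl⟩
      · exact ⟨g, Or.inl hg, rfl⟩
      · exact ⟨g, Or.inr ⟨g⁻¹, hg, inv_inv g⟩, rfl⟩
  have hwd : ∀ l : List G, (∀ x ∈ l, x ∈ S ∨ x⁻¹ ∈ S) →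
      Wd ((S ∪ S.image (fun x => x⁻¹)).image f) (l.map f) := by
    intro l hl s hs
    obtain ⟨x, hx, rfl⟩ := List.mem_map.1 hs
    exact (hmem _).2 ⟨x, hl x hx, rfl⟩
  refine ⟨(S ∪ S.image (fun x => x⁻¹)).image f, ⟨?_, ?_⟩, ?_⟩
  · intro s hs
    obtain ⟨g, hg, rfl⟩ := (hmem s).1 hs
    refine (hmem _).2 ⟨g⁻¹, ?_, f_inv hf g⟩
    rw [inv_inv]
    exact hg.symm
  · intro p
    obtain ⟨g, rfl⟩ := hf.bij.2 p
    have hg : g ∈ Subgroup.closure (S : Set G) := by rw [hS]; exact Subgroup.mem_top g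
    rw [← Subgroup.mem_toSubmonoid, Subgroup.closure_toSubmonoid] at hg
    obtain ⟨l, hl, hlp⟩ := Submonoid.exists_list_of_mem_closure hg
    refine ⟨l.map f, hwd l ?_, ?_⟩
    · intro x hx
      rcases hl x hx with h | h
      · exact Or.inl h
      · exact Or.inr (Set.mem_inv.1 h)
    · rw [val_map hf, hlp]
  · intro g n
    constructor
    · rintro ⟨l, hn, hl, hg⟩
      exact ⟨l.map f, by rw [List.length_map, hn], hwd l hl, by rw [val_map hf, hg]⟩
    · rintro ⟨w, hn, hw, hg⟩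
      obtain ⟨l, hl, rfl⟩ := exists_lift (f := f) (P := fun x => x ∈ S ∨ x⁻¹ ∈ S)
        (fun s hs => (hmem s).1 (hw s hs))
      rw [val_map hf] at hg
      exact ⟨l, by rw [← hn, List.length_map], hl, hf.bij.1 hg⟩

end Pool.Agent.J6H86.CH27
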